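import Mathlib
import Pool.Agent.Helper6.Sun.Transfer

/-!
The complete answer to Q1: the congruences for `p = 3, 5, 7` modulo `8` hold as posed, and for
`p = x ^ 2 + 2 y ^ 2 = 1` modulo `8` the correct sign is `(-1) ^ ((x - 1) / 2 + y / 2)`, so that the
congruence as posed holds exactly when `4` does not divide `y`.
-/

namespace Pool.Agent.Results.MP_17cdb9_nt.CompleteAnswer

open Pool.Agent.Helper6.Sun

/-- The generalised binomial coefficient `a (a - 1) ... (a - k + 1) / k!` of a rational `a`. -/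
def gbinom (a : ℚ) (k : ℕ) : ℚ := (∏ i ∈ Finset.range k, (a - (i : ℚ))) / (k.factorial : ℚ)

/-- `S(p) = ∑_{k=0}^{p-1} (-1)^k binom(-1/4, k)^2`. -/
def S (p : ℕ) : ℚ := ∑ k ∈ Finset.range p, (-1) ^ k * gbinom (-1 / 4) k ^ 2

/-- `u ≡ v (mod p^m)` in `ℤ_(p)`: the rational `(u - v) / p^m` has denominator prime to `p`. -/
def CongrModPow (p m : ℕ) (u v : ℚ) : Prop :=
  Nat.Coprime p ((u - v) / (p : ℚ) ^ m).den

/-- The congruences of Q1, exactly as posed, for one odd prime `p`. -/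
def Q1At (p : ℕ) : Prop :=
  (p % 8 = 1 → ∀ x y : ℤ, (p : ℤ) = x ^ 2 + 2 * y ^ 2 →
    CongrModPow p 2 (S p) ((-1 : ℚ) ^ ((x + 1) / 2) * (2 * (x : ℚ) - (p : ℚ) / (2 * (x : ℚ))))) ∧
  (p % 8 = 3 → ∀ x y : ℤ, (p : ℤ) = x ^ 2 + 2 * y ^ 2 →
    CongrModPow p 2 (S p) ((-1 : ℚ) ^ ((y - 1) / 2) * (4 * (y : ℚ) - (p : ℚ) / (2 * (y : ℚ))))) ∧
  ((p % 8 = 5 ∨ p % 8 = 7) → CongrModPow p 1 (S p) 0)

/-- The congruences of Q1 with the sign for `p = 1` modulo `8` corrected. -/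
def CorrectedAt (p : ℕ) : Prop :=
  (p % 8 = 1 → ∀ x y : ℤ, (p : ℤ) = x ^ 2 + 2 * y ^ 2 →
    CongrModPow p 2 (S p)
      ((-1 : ℚ) ^ ((x - 1) / 2 + y / 2) * (2 * (x : ℚ) - (p : ℚ) / (2 * (x : ℚ))))) ∧
  (p % 8 = 3 → ∀ x y : ℤ, (p : ℤ) = x ^ 2 + 2 * y ^ 2 →
    CongrModPow p 2 (S p) ((-1 : ℚ) ^ ((y - 1) / 2) * (4 * (y : ℚ) - (p : ℚ) / (2 * (y : ℚ))))) ∧
  ((p % 8 = 5 ∨ p % 8 = 7) → CongrModPow p 1 (S p) 0)

/-- representations are prime to `p` -/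
theorem not_dvd_two_mul {p : ℕ} [hp : Fact p.Prime] (hp2 : p ≠ 2) {x y : ℤ}
    (h : (p : ℤ) = x ^ 2 + 2 * y ^ 2) : ¬ (p : ℤ) ∣ 2 * x ∧ ¬ (p : ℤ) ∣ 2 * y := by
  have hpp := prime_int (p := p)
  have h2 : ¬ (p : ℤ) ∣ 2 := by
    intro hd
    have : p ∣ 2 := Int.natCast_dvd_natCast.mp (by exact_mod_cast hd)
    exact hp2 ((Nat.prime_dvd_prime_iff_eq hp.out Nat.prime_two).mp this)
  have key : ¬ ((p : ℤ) ∣ x ∧ (p : ℤ) ∣ y) := by
    rintro ⟨⟨a, ha⟩, ⟨b, hb⟩⟩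
    have h3 : (p : ℤ) ∣ 1 := by
      refine ⟨a ^ 2 + 2 * b ^ 2, ?_⟩
      have hp0 : (p : ℤ) ≠ 0 := by exact_mod_cast hp.out.ne_zero
      apply mul_left_cancel₀ hp0
      rw [mul_one]
      nth_rewrite 1 [h]
      rw [ha, hb]
      ring
    exact hpp.not_isUnit (isUnit_of_dvd_one h3)
  have hxy : (p : ℤ) ∣ x ↔ (p : ℤ) ∣ y := by
    constructor
    · intro hx
      have h3 : (p : ℤ) ∣ 2 * y ^ 2 := by
        have : 2 * y ^ 2 = (p : ℤ) - x * x := by rw [h]; ring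
        rw [this]
        exact dvd_sub (dvd_refl _) (hx.mul_right x)
      rcases hpp.dvd_or_dvd h3 with h4 | h4
      · exact absurd h4 h2
      · exact hpp.dvd_of_dvd_pow h4
    · intro hy
      have h3 : (p : ℤ) ∣ x ^ 2 := by
        have : x ^ 2 = (p : ℤ) - y * (2 * y) := by rw [h]; ring
        rw [this]
        exact dvd_sub (dvd_refl _) (hy.mul_right (2 * y))
      exact hpp.dvd_of_dvd_pow h3
  constructor
  · intro hd
    rcases hpp.dvd_or_dvd hd with h4 | h4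
    · exact h2 h4
    · exact key ⟨h4, hxy.mp h4⟩
  · intro hd
    rcases hpp.dvd_or_dvd hd with h4 | h4
    · exact h2 h4
    · exact key ⟨hxy.mpr h4, h4⟩

/-- **Corrected congruences, for every odd prime.** -/
theorem corrected (p : ℕ) (hp : p.Prime) (hp2 : p ≠ 2) : CorrectedAt p := by
  have hfact : Fact p.Prime := ⟨hp⟩
  have hS : Rep p (S p) (SR (-(4 : ZMod (p ^ 2))⁻¹)) := (Rep.quarter hp2).S
  refine ⟨fun h8 x y h => ?_, fun h8 x y h => ?_, fun h8 => ?_⟩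
  · obtain ⟨f, hf⟩ : ∃ f, p = 8 * f + 1 := ⟨p / 8, by omega⟩
    have hf0 : 0 < f := by
      rcases Nat.eq_zero_or_pos f with h0 | h0
      · rw [h0] at hf
        rw [hf] at hp
        exact absurd hp (by norm_num)
      · exact h0
    obtain ⟨sg, hsg, hval⟩ := caseA_final hf hf0 x y h
    have hnd := (not_dvd_two_mul hp2 h).1
    have hx0 := Rep.ne hnd
    apply hS.congr
    refine ⟨sg * (4 * x ^ 2 - p), 2 * x, hnd, ?_, ?_⟩
    · rw [hsg]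
      push_cast at hx0 ⊢
      field_simp
      ring
    · push_cast
      exact hval
  · obtain ⟨f, hf⟩ : ∃ f, p = 8 * f + 3 := ⟨p / 8, by omega⟩
    obtain ⟨sg, hsg, hval⟩ := caseB_final hf x y h
    have hnd := (not_dvd_two_mul hp2 h).2
    have hy0 := Rep.ne hnd
    apply hS.congr
    refine ⟨sg * (8 * y ^ 2 - p), 2 * y, hnd, ?_, ?_⟩
    · rw [hsg]
      push_cast at hy0 ⊢
      field_simp
      ring
    · push_cast
      exact hval
  · exact hS.congr_one (caseC h8)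

theorem y_even {p : ℕ} (h8 : p % 8 = 1) {x y : ℤ} (h : (p : ℤ) = x ^ 2 + 2 * y ^ 2) :
    x % 2 = 1 ∧ y % 2 = 0 := by
  have hx : x % 2 = 1 := by
    by_contra hc
    obtain ⟨a, ha⟩ : ∃ a, x = 2 * a := ⟨x / 2, by omega⟩
    have h1 : (p : ℤ) = 2 * (2 * a ^ 2 + y ^ 2) := by rw [h, ha]; ring
    omega
  refine ⟨hx, ?_⟩
  by_contra hc
  obtain ⟨a, ha⟩ : ∃ a, x = 2 * a + 1 := ⟨x / 2, by omega⟩
  obtain ⟨b, hb⟩ : ∃ b, y = 2 * b + 1 := ⟨y / 2, by omega⟩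
  obtain ⟨c, hc⟩ : ∃ c, a * (a + 1) = 2 * c := by
    obtain ⟨c, hc⟩ := Int.even_mul_succ_self a
    exact ⟨c, by omega⟩
  obtain ⟨d, hd⟩ : ∃ d, b * (b + 1) = 2 * d := by
    obtain ⟨d, hd⟩ := Int.even_mul_succ_self b
    exact ⟨d, by omega⟩
  have h1 : (p : ℤ) = 8 * c + 16 * d + 3 := by
    rw [h, ha, hb]
    linear_combination 4 * hc + 8 * hd
  omega

/-- The congruences at one prime. -/
theorem at_prime (p : ℕ) (hp : p.Prime) (hp2 : p ≠ 2) :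
    CorrectedAt p ∧
    (Q1At p ↔ (p % 8 = 1 → ∀ x y : ℤ, (p : ℤ) = x ^ 2 + 2 * y ^ 2 → ¬ (4 : ℤ) ∣ y)) := by
  have hcor := corrected p hp hp2
  have hfact : Fact p.Prime := ⟨hp⟩
  refine ⟨hcor, fun hQ h8 x y h h4 => ?_, fun hy => ⟨fun h8 x y h => ?_, hcor.2.1, hcor.2.2⟩⟩
  · have hS : Rep p (S p) (SR (-(4 : ZMod (p ^ 2))⁻¹)) := (Rep.quarter hp2).S
    obtain ⟨hx2, hy2⟩ := y_even h8 h
    have h1 := hcor.1 h8 x y h
    have h2 := hQ.1 h8 x y h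
    obtain ⟨v, hv⟩ : ∃ v : ℚ, v = 2 * (x : ℚ) - (p : ℚ) / (2 * (x : ℚ)) := ⟨_, rfl⟩
    have e1 : (-1 : ℚ) ^ ((x - 1) / 2 + y / 2) = -(-1 : ℚ) ^ ((x + 1) / 2) := by
      rw [zpow_add₀ (by norm_num)]
      have e2 : Even (y / 2) := by rw [Int.even_iff]; omega
      have e3 : (x + 1) / 2 = (x - 1) / 2 + 1 := by omega
      rw [e2.neg_one_zpow, e3, zpow_add₀ (by norm_num)]
      norm_num
    rw [← hv] at h1 h2
    rw [e1, neg_mul] at h1
    have hf : ∃ f, p = 8 * f + 1 := ⟨p / 8, by omega⟩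
    obtain ⟨f, hf⟩ := hf
    exact Rep.absurd_neg hp2 (SR_unit (by omega) (quarter_eq hf)) (hS.of_congr h2) (hS.of_congr h1)
  · have h4 := hy h8 x y h
    obtain ⟨hx2, hy2⟩ := y_even h8 h
    have e1 : (-1 : ℚ) ^ ((x + 1) / 2) = (-1 : ℚ) ^ ((x - 1) / 2 + y / 2) := by
      rw [zpow_add₀ (by norm_num)]
      have e2 : Odd (y / 2) := by rw [Int.odd_iff]; omega
      have e3 : (x + 1) / 2 = (x - 1) / 2 + 1 := by omega
      rw [e2.neg_one_zpow, e3, zpow_add₀ (by norm_num)]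
      norm_num
    rw [e1]
    exact hcor.1 h8 x y h

/-- **Complete answer to Q1.** For every odd prime `p` the congruences with the corrected sign
hold, and the congruences as posed hold exactly when `p` is not `1` modulo `8` or `4` does not
divide `y` in `p = x ^ 2 + 2 y ^ 2`; in particular they do not hold for every odd prime. -/
theorem result :
    (∀ p : ℕ, p.Prime → p ≠ 2 → CorrectedAt p ∧
      (Q1At p ↔ (p % 8 = 1 → ∀ x y : ℤ, (p : ℤ) = x ^ 2 + 2 * y ^ 2 → ¬ (4 : ℤ) ∣ y))) ∧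
    ¬ ∀ p : ℕ, p.Prime → p ≠ 2 → Q1At p := by
  refine ⟨at_prime, fun H => ?_⟩
  have h1 := (at_prime 41 (by norm_num) (by norm_num)).2.mp (H 41 (by norm_num) (by norm_num))
    (by norm_num) 3 4 (by norm_num)
  exact h1 (dvd_refl 4)

end Pool.Agent.Results.MP_17cdb9_nt.CompleteAnswer
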